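import Pool.Agent.MT100D.Stmts
import Pool.Agent.Helper47_MT100G.Fps

/-! MT100-D, module FSA: formal relations between the translated fundamental matrices persist under the
product of the Zariski closures of the monodromy groups, rational exponents at infinity. -/

set_option autoImplicit false

namespace Pool.Agent.MT100D.H46

open Matrix Polynomial Pool.Agent.MT100 Pool.Agent.MT100G Pool.Agent.MT100A Pool.Agent.Helper78_MT
open Pool.Agent.Helper65MT100 Pool.Agent.MT100G.H47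

/-! ### evaluation of the formal relation -/

theorem t_ab (h4 : EvaStmt) (h5 : TrgDStmt) {d : Type} [Fintype d] [DecidableEq d] (F : Family d)
    (κ : ℕ) (i j : d) : ∀ᶠ w : ℝ in Filter.atTop, Helper65MT100.Ab (F.T κ i j) w⁻¹ := by
  obtain ⟨K, N, δ', q, B, hG⟩ := h5 d F.H F.K F.N F.δ F.q F.B F.sys κ
  obtain ⟨δ, hδ, hs⟩ := h4.1 _ (hG.gH i j)
  have ht : Filter.Tendsto (fun w : ℝ => w⁻¹) Filter.atTop (nhds 0) := tendsto_inv_atTop_zero
  filter_upwards [ht.eventually (Metric.ball_mem_nhds (0 : ℝ) hδ)] with w hw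
  have hw' : |w⁻¹| < δ := by
    have := Metric.mem_ball.mp hw
    rwa [Real.dist_eq, sub_zero] at this
  exact hs _ hw'

theorem rel_ev (h4 : EvaStmt) (h5 : TrgDStmt) {d : Type} [Fintype d] [DecidableEq d] (F : Family d)
    {ι : Type} [Fintype ι] [DecidableEq ι] (κ : ι → ℕ) (k : ℕ)
    (p : (ι × Fin k → d) → (ι × Fin k → d) → ℚ[X])
    (hp : ∑ β, ∑ α, ((p β α : ℚ[X]) : PowerSeries ℚ) * ∏ s, F.T (κ s.1) (β s) (α s) = 0) :
    ∀ᶠ w : ℝ in Filter.atTop, ∑ β, ∑ α, (p β α).eval₂ (algebraMap ℚ ℂ) ((w : ℂ)⁻¹) *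
      ∏ s, F.tv (κ s.1) w (β s) (α s) = 0 := by
  have hE : E3 := fun f g x hf hg => h4.2.2.1 f g x hf hg
  have hA : ∀ᶠ w : ℝ in Filter.atTop, ∀ (i : ι) (a b : d),
      Helper65MT100.Ab (F.T (κ i) a b) w⁻¹ := by
    rw [Filter.eventually_all]
    intro i
    rw [Filter.eventually_all]
    intro a
    rw [Filter.eventually_all]
    intro b
    exact t_ab h4 h5 F (κ i) a b
  filter_upwards [hA] with w hw
  have h1 : ∀ β α : ι × Fin k → d, Helper65MT100.Ab (((p β α : ℚ[X]) : PowerSeries ℚ) *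
      ∏ s, F.T (κ s.1) (β s) (α s)) w⁻¹ ∧ ev (((p β α : ℚ[X]) : PowerSeries ℚ) *
      ∏ s, F.T (κ s.1) (β s) (α s)) w⁻¹ = ((p β α).map (algebraMap ℚ ℝ)).eval w⁻¹ *
        ∏ s, ev (F.T (κ s.1) (β s) (α s)) w⁻¹ := by
    intro β α
    have h2 := prod_ev hE Finset.univ (fun s : ι × Fin k => F.T (κ s.1) (β s) (α s))
      (x := w⁻¹) (fun s _ => hw s.1 (β s) (α s))
    have h3 := hE _ _ w⁻¹ (ab_poly (p β α) w⁻¹) h2.1
    refine ⟨h3.1, ?_⟩
    rw [h3.2.2.2, h2.2, h4.2.1]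
  have h2 := fun β : ι × Fin k → d => sum_ev hE Finset.univ
    (fun α : ι × Fin k → d => ((p β α : ℚ[X]) : PowerSeries ℚ) *
      ∏ s, F.T (κ s.1) (β s) (α s)) (x := w⁻¹) (fun α _ => (h1 β α).1)
  have h3 := sum_ev hE Finset.univ (fun β : ι × Fin k → d => ∑ α : ι × Fin k → d,
    ((p β α : ℚ[X]) : PowerSeries ℚ) * ∏ s, F.T (κ s.1) (β s) (α s)) (x := w⁻¹)
    (fun β _ => (h2 β).1)
  rw [hp, ev_zero] at h3
  have h5 : (0 : ℝ) = ∑ β : ι × Fin k → d, ∑ α : ι × Fin k → d,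
      ((p β α).map (algebraMap ℚ ℝ)).eval w⁻¹ *
        ∏ s, ev (F.T (κ s.1) (β s) (α s)) w⁻¹ := by
    rw [h3.2]
    refine Finset.sum_congr rfl fun β _ => ?_
    rw [(h2 β).2]
    exact Finset.sum_congr rfl fun α _ => (h1 β α).2
  have h6 := congrArg (algebraMap ℝ ℂ) h5
  rw [map_zero, map_sum] at h6
  rw [h6]
  refine Finset.sum_congr rfl fun β _ => ?_
  rw [map_sum]
  refine Finset.sum_congr rfl fun α _ => ?_
  rw [map_mul, map_prod]
  have h7 : (p β α).eval₂ (algebraMap ℚ ℂ) ((w : ℂ)⁻¹) =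
      algebraMap ℝ ℂ (((p β α).map (algebraMap ℚ ℝ)).eval w⁻¹) := by
    rw [eval_map, hom_eval₂]
    have h8 : (algebraMap ℝ ℂ) w⁻¹ = (w : ℂ)⁻¹ := by
      rw [map_inv₀]
      rfl
    rw [h8]
    rfl
  rw [h7]
  rfl

/-! ### the exponents -/

/-- common denominator of the exponents, and a bound -/
theorem ex_den {d : Type} [Fintype d] (δ : d → ℚ) :
    ∃ (m M : ℕ) (n : d → ℕ), 0 < m ∧ ∀ a, (n a : ℚ) = m * δ a + M := by
  classical
  set m : ℕ := ∏ a, (δ a).den with hm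
  have hm0 : 0 < m := Finset.prod_pos fun a _ => (δ a).den_pos
  have h1 : ∀ a, ∃ z : ℤ, (z : ℚ) = m * δ a := by
    intro a
    obtain ⟨c, hc⟩ : (δ a).den ∣ m := Finset.dvd_prod_of_mem _ (Finset.mem_univ a)
    refine ⟨c * (δ a).num, ?_⟩
    rw [hc]
    push_cast
    have h2 : (δ a).num = (δ a) * (δ a).den := (Rat.mul_den_eq_num (δ a)).symm
    rw [h2]
    ring
  choose z hz using h1
  refine ⟨m, ∑ a, (z a).natAbs, fun a => (z a + ((∑ b, (z b).natAbs : ℕ) : ℤ)).toNat, hm0,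
    fun a => ?_⟩
  have h2 : (z a).natAbs ≤ ∑ b, (z b).natAbs :=
    Finset.single_le_sum (f := fun b => (z b).natAbs) (fun b _ => Nat.zero_le _)
      (Finset.mem_univ a)
  have h3 : 0 ≤ z a + ((∑ b, (z b).natAbs : ℕ) : ℤ) := by omega
  have h4 := Int.toNat_of_nonneg h3
  have h5 : (((z a + ((∑ b, (z b).natAbs : ℕ) : ℤ)).toNat : ℤ) : ℚ) =
      ((z a + ((∑ b, (z b).natAbs : ℕ) : ℤ) : ℤ) : ℚ) := by rw [h4]
  rw [Int.cast_natCast, Int.cast_add, hz, Int.cast_natCast] at h5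
  exact h5

/-! ### the polynomial -/

/-- the matrix of variables -/
noncomputable def Ym {ι d : Type} (i : ι) : Matrix d d (MvPolynomial (Fin 3 ⊕ (ι × d × d)) ℂ) :=
  fun a b => MvPolynomial.X (Sum.inr (i, a, b))

/-- the matrix of variables times the power -/
noncomputable def Yn {ι d : Type} [Fintype d] [DecidableEq d] (N : Matrix d d ℤ) (n : d → ℕ)
    (i : ι) : Matrix d d (MvPolynomial (Fin 3 ⊕ (ι × d × d)) ℂ) :=
  Ym i * (diagonal (fun a => MvPolynomial.X (Sum.inl 2) ^ n a) * eN N (MvPolynomial.X (Sum.inl 1)))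

theorem yn_eval {ι d : Type} [Fintype d] [DecidableEq d] (N : Matrix d d ℤ) (δ : d → ℚ) (m M : ℕ)
    (n : d → ℕ) (hm : 0 < m) (hn : ∀ a, (n a : ℚ) = m * δ a + M) (w l : ℂ)
    (Y : ι → Matrix d d ℂ) (i : ι) :
    (Yn N n i).map (MvPolynomial.eval (vrD m w l Y)) =
      Complex.exp (l / m) ^ M • (Y i * (ed δ l * eN N l)) := by
  have h1 : (Ym (d := d) i).map (MvPolynomial.eval (vrD m w l Y)) = Y i := by
    ext a b
    rw [Matrix.map_apply]
    unfold Ym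
    rw [MvPolynomial.eval_X]
    rfl
  have h2 : (eN N (MvPolynomial.X (Sum.inl 1) : MvPolynomial (Fin 3 ⊕ (ι × d × d)) ℂ)).map
      (MvPolynomial.eval (vrD m w l Y)) = eN N l := by
    rw [eN_map, MvPolynomial.eval_X]
    rfl
  have hm' : (m : ℂ) ≠ 0 := by exact_mod_cast hm.ne'
  have h3 : (diagonal (fun a => (MvPolynomial.X (Sum.inl 2) :
      MvPolynomial (Fin 3 ⊕ (ι × d × d)) ℂ) ^ n a)).map (MvPolynomial.eval (vrD m w l Y)) =
        Complex.exp (l / m) ^ M • ed δ l := by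
    rw [Matrix.diagonal_map (map_zero _)]
    unfold ed
    rw [← Matrix.diagonal_smul]
    refine congrArg diagonal (funext fun a => ?_)
    rw [map_pow, MvPolynomial.eval_X, Pi.smul_apply, smul_eq_mul]
    have h4 : vrD m w l Y (Sum.inl 2) = Complex.exp (l / m) := rfl
    rw [h4, ← Complex.exp_nat_mul, ← Complex.exp_nat_mul, ← Complex.exp_add]
    refine congrArg Complex.exp ?_
    have h5 : ((n a : ℕ) : ℂ) = m * (δ a : ℂ) + M := by
      have h6 := congrArg (algebraMap ℚ ℂ) (hn a)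
      rw [map_add, map_mul, map_natCast, map_natCast, map_natCast] at h6
      exact h6
    rw [h5]
    field_simp
    ring
  unfold Yn
  rw [Matrix.map_mul, Matrix.map_mul, h1, h2, h3, Matrix.smul_mul, Matrix.mul_smul]

/-- the polynomial relation -/
noncomputable def Ph {ι d : Type} [Fintype ι] [DecidableEq ι] [Fintype d] [DecidableEq d]
    (N : Matrix d d ℤ) (n : d → ℕ) (k D : ℕ) (p : (ι × Fin k → d) → (ι × Fin k → d) → ℚ[X]) :
    MvPolynomial (Fin 3 ⊕ (ι × d × d)) ℂ :=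
  ∑ β, ∑ α, ((p β α).reflect D).eval₂ (algebraMap ℚ _) (MvPolynomial.X (Sum.inl 0)) *
    ∏ s : ι × Fin k, Yn N n s.1 (β s) (α s)

theorem ph_eval {ι d : Type} [Fintype ι] [DecidableEq ι] [Fintype d] [DecidableEq d]
    (N : Matrix d d ℤ) (δ : d → ℚ) (m M : ℕ) (n : d → ℕ) (hm : 0 < m)
    (hn : ∀ a, (n a : ℚ) = m * δ a + M) (k D : ℕ)
    (p : (ι × Fin k → d) → (ι × Fin k → d) → ℚ[X])
    (hD : ∀ β α, (p β α).natDegree ≤ D) (w l : ℂ) (hw : w ≠ 0) (Y : ι → Matrix d d ℂ) :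
    MvPolynomial.eval (vrD m w l Y) (Ph N n k D p) =
      (w ^ D * (Complex.exp (l / m) ^ M) ^ Fintype.card (ι × Fin k)) *
        ∑ β, ∑ α, (p β α).eval₂ (algebraMap ℚ ℂ) w⁻¹ *
          ∏ s, (Y s.1 * (ed δ l * eN N l)) (β s) (α s) := by
  unfold Ph
  rw [map_sum, Finset.mul_sum]
  refine Finset.sum_congr rfl fun β _ => ?_
  rw [map_sum, Finset.mul_sum]
  refine Finset.sum_congr rfl fun α _ => ?_
  rw [map_mul, map_prod]
  have h1 : MvPolynomial.eval (vrD m w l Y) (((p β α).reflect D).eval₂ (algebraMap ℚ _)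
      (MvPolynomial.X (Sum.inl 0))) = w ^ D * (p β α).eval₂ (algebraMap ℚ ℂ) w⁻¹ := by
    rw [hom_eval₂, MvPolynomial.eval_X]
    have h2 : (MvPolynomial.eval (vrD m w l Y)).comp (algebraMap ℚ
        (MvPolynomial (Fin 3 ⊕ (ι × d × d)) ℂ)) = algebraMap ℚ ℂ := RingHom.ext_rat _ _
    have h3 : vrD m w l Y (Sum.inl 0) = w := rfl
    rw [h2, h3]
    let _ : Invertible (w⁻¹) := invertibleOfNonzero (inv_ne_zero hw)
    have h4 := Polynomial.eval₂_reflect_mul_pow (algebraMap ℚ ℂ) (w⁻¹) D (p β α) (hD β α)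
    rw [invOf_eq_inv, inv_inv] at h4
    rw [← h4, inv_pow, mul_comm, mul_assoc, inv_mul_cancel₀ (pow_ne_zero D hw), mul_one]
  have h2 : ∏ s : ι × Fin k, MvPolynomial.eval (vrD m w l Y) (Yn N n s.1 (β s) (α s)) =
      (Complex.exp (l / m) ^ M) ^ Fintype.card (ι × Fin k) *
        ∏ s : ι × Fin k, (Y s.1 * (ed δ l * eN N l)) (β s) (α s) := by
    rw [← Finset.card_univ, ← Finset.prod_const, ← Finset.prod_mul_distrib]
    refine Finset.prod_congr rfl fun s _ => ?_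
    have h3 := congrFun (congrFun (yn_eval N δ m M n hm hn w l Y s.1) (β s)) (α s)
    rw [Matrix.map_apply, Matrix.smul_apply, smul_eq_mul] at h3
    exact h3
  rw [h1, h2]
  ring

/-- FSAD -/
theorem fsa (h1 : BasDStmt) (h2 : VagDStmt) (h3 : PsaDStmt) (h4 : EvaStmt) (h5 : TrgDStmt) :
    FsaDStmt := by
  intro d _ _ F
  obtain ⟨R, hB⟩ := h1 d F
  obtain ⟨D0, hD0⟩ := h3 d F.q F.B R F.Y hB
  refine ⟨D0, ?_⟩
  intro ι _ _ κ hκ k
  obtain ⟨m, M, n, hm, hn⟩ := ex_den F.δ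
  obtain ⟨R0, hR⟩ := hD0 ι κ hκ m hm
  refine ⟨max R0 0, fun p hp w hw g hg => ?_⟩
  have hw0 : R0 < w := lt_of_le_of_lt (le_max_left _ _) hw
  have hw2 : 0 < w := lt_of_le_of_lt (le_max_right _ _) hw
  have hT : ∀ᶠ w : ℝ in Filter.atTop, ∀ i : ι,
      F.Y ((w : ℂ) - κ i) * F.R w = F.tv (κ i) w := by
    rw [Filter.eventually_all]
    intro i
    exact h2 d F (κ i)
  obtain ⟨D, hD⟩ : ∃ D : ℕ, ∀ β α, (p β α).natDegree ≤ D :=
    ⟨Finset.univ.sup fun x : (ι × Fin k → d) × (ι × Fin k → d) => (p x.1 x.2).natDegree,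
      fun β α => Finset.le_sup (f := fun x : (ι × Fin k → d) × (ι × Fin k → d) =>
        (p x.1 x.2).natDegree) (Finset.mem_univ (β, α))⟩
  have hΦ : ∀ᶠ w : ℝ in Filter.atTop, MvPolynomial.eval (vrD m (w : ℂ) (Complex.log w)
      fun i => F.Y ((w : ℂ) - κ i)) (Ph F.N n k D p) = 0 := by
    filter_upwards [hT, rel_ev h4 h5 F κ k p hp, Filter.eventually_gt_atTop 0] with x hx1 hx2 hx0
    rw [ph_eval F.N F.δ m M n hm hn k D p hD _ _ (by exact_mod_cast hx0.ne')]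
    have h6 : ∀ s : ι × Fin k, F.Y ((x : ℂ) - κ s.1) *
        (ed F.δ (Complex.log x) * eN F.N (Complex.log x)) = F.tv (κ s.1) x := fun s => hx1 s.1
    simp only [h6]
    rw [hx2, mul_zero]
  have h6 := hR (Ph F.N n k D p) hΦ w hw0 g hg
  have hwc : (w : ℂ) ≠ 0 := by exact_mod_cast hw2.ne'
  rw [ph_eval F.N F.δ m M n hm hn k D p hD _ _ hwc] at h6
  exact (mul_eq_zero.mp h6).resolve_left
    (mul_ne_zero (pow_ne_zero D hwc) (pow_ne_zero _ (pow_ne_zero _ (Complex.exp_ne_zero _))))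

end Pool.Agent.MT100D.H46
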