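import Pool.Agent.MT100D.Stmts
import Pool.Agent.Helper87_MT100G.Prm

/-! MT100-D, module PMAD: permanence of relations under continuation. -/

set_option autoImplicit false

namespace Pool.Agent.MT100D.H46

open Matrix Polynomial Pool.Agent.MT100 Pool.Agent.MT100G Pool.Agent.MT100A Pool.Agent.Helper78_MT
open Filter Topology Pool.Agent.MT100G.H87

theorem differentiableOn_vrD {ι d : Type} (m : ℕ) {L : ℂ → ℂ} {Y : ι → ℂ → Matrix d d ℂ} {U : Set ℂ}
    (hL : DifferentiableOn ℂ L U) (hY : ∀ i a b, DifferentiableOn ℂ (fun w => Y i w a b) U)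
    (Φ : MvPolynomial (Fin 3 ⊕ (ι × d × d)) ℂ) :
    DifferentiableOn ℂ (fun w => MvPolynomial.eval (vrD m w (L w) fun i => Y i w) Φ) U := by
  apply differentiableOn_eval
  rintro (b | x)
  · fin_cases b
    · exact differentiableOn_id
    · exact hL
    · exact (hL.div_const (m : ℂ)).cexp
  · exact hY x.1 x.2.1 x.2.2

/-- PMAD -/
theorem pma : PmaDStmt := by
  intro d _ _ q B R Y hB ι _ κ m _
  have hR := hB.pos
  have hsol := hB.sol
  set M : ℕ := Finset.univ.sup κ with hM
  have hκ : ∀ i, κ i ≤ M := fun i => Finset.le_sup (Finset.mem_univ i)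
  set R0 : ℝ := R + M with hR0
  set U : Set ℂ := {w | R0 < w.re} with hU
  have hUo : IsOpen U := isOpen_lt continuous_const Complex.continuous_re
  have hUc : Convex ℝ U := convex_halfSpace_re_gt R0
  have hUp : IsPreconnected U := hUc.isPreconnected
  have hm0 : (0 : ℝ) ≤ M := Nat.cast_nonneg M
  -- the functions are holomorphic on the half plane
  have hlog : DifferentiableOn ℂ Complex.log U := by
    intro w hw
    have hw' : R0 < w.re := hw
    exact (Complex.differentiableAt_log (Or.inl (by linarith))).differentiableWithinAt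
  have hYH : ∀ i a b, DifferentiableOn ℂ (fun w => Y (w - κ i) a b) U := by
    intro i a b w hw
    have hw' : R0 < w.re := hw
    have hk : ((κ i : ℕ) : ℝ) ≤ M := by exact_mod_cast hκ i
    have h1 : R < (w - κ i).re := by
      rw [Complex.sub_re, Complex.natCast_re]
      linarith
    have h2 : Metric.ball (w - κ i) ((w - κ i).re - R) ⊆ {w : ℂ | R < w.re} := by
      intro v hv
      rw [Metric.mem_ball, dist_eq_norm] at hv
      have h3 := (Complex.abs_re_le_norm (v - (w - κ i))).trans_lt hv
      rw [Complex.sub_re] at h3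
      have h4 := (abs_lt.1 h3).1
      change R < v.re
      linarith
    have h3 := hsol (w - κ i) ((w - κ i).re - R) (by linarith) h2
    have h4 : DifferentiableAt ℂ (fun x => Y x a b) (w - κ i) :=
      (h3.ode (w - κ i) (Metric.mem_ball_self (by linarith)) a b).differentiableAt
    have h5 : DifferentiableAt ℂ (fun w : ℂ => w - κ i) w :=
      differentiableAt_id.sub (differentiableAt_const _)
    exact (h4.comp w h5).differentiableWithinAt
  refine ⟨R0, ?_⟩
  intro Φ hΦ t ht
  -- the relation holds in the half plane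
  have h0 : ∀ w ∈ U, MvPolynomial.eval (vrD m w (Complex.log w)
      fun i => Y (w - κ i)) Φ = 0 := by
    obtain ⟨a, ha⟩ := Filter.eventually_atTop.1 hΦ
    set x0 : ℝ := max a R0 + 1 with hx0
    have hx0a : a < x0 := by
      have := le_max_left a R0
      linarith
    have hx0R : R0 < x0 := by
      have := le_max_right a R0
      linarith
    refine eqOn_zero hUo hUp (differentiableOn_vrD m (L := Complex.log)
      (Y := fun i w => Y (w - κ i)) hlog hYH Φ) (z := (x0 : ℂ)) ?_ ?_
    · change R0 < (x0 : ℂ).re
      rwa [Complex.ofReal_re]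
    · have h1 : ∃ᶠ x : ℝ in 𝓝[≠] x0, MvPolynomial.eval (vrD m (x : ℂ) (Complex.log x)
          fun i => Y ((x : ℂ) - κ i)) Φ = 0 := by
        apply Eventually.frequently
        apply eventually_nhdsWithin_of_eventually_nhds
        filter_upwards [lt_mem_nhds hx0a] with x hx
        exact ha x hx.le
      have h2 : Tendsto (fun x : ℝ => (x : ℂ)) (𝓝[≠] x0) (𝓝[≠] (x0 : ℂ)) := by
        apply tendsto_nhdsWithin_of_tendsto_nhds_of_eventually_within
        · exact (Complex.continuous_ofReal.tendsto x0).mono_left nhdsWithin_le_nhds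
        · filter_upwards [self_mem_nhdsWithin] with x hx
          intro h
          exact hx (Complex.ofReal_injective h)
      exact h2.frequently h1
  -- along a chain
  obtain ⟨c, hc, hchain⟩ : ∃ c : ℝ, R0 + 1 < c ∧ CntT q B κ
      ((c : ℂ), 1, (fun _ => Y), Complex.log)
      ((c : ℂ), 1, (fun i w => Y w * t.1 i),
        fun w => Complex.log w + 2 * Real.pi * Complex.I * t.2) := by
    have h1 : ∀ᶠ c : ℝ in atTop, R0 + 1 < c := eventually_gt_atTop _
    obtain ⟨c, h2, h3⟩ := (h1.and ht).exists
    exact ⟨c, h2, h3⟩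
  have hball : Metric.ball (c : ℂ) 1 ⊆ U := by
    intro v hv
    rw [Metric.mem_ball, dist_eq_norm] at hv
    have h3 := (Complex.abs_re_le_norm (v - c)).trans_lt hv
    rw [Complex.sub_re, Complex.ofReal_re] at h3
    have h4 := (abs_lt.1 h3).1
    change R0 < v.re
    linarith
  have hstep : ∀ x y : ℂ × ℝ × (ι → ℂ → Matrix d d ℂ) × (ℂ → ℂ), CntT q B κ x y →
      (∀ w ∈ Metric.ball x.1 x.2.1, MvPolynomial.eval (vrD m w (x.2.2.2 w)
        fun i => x.2.2.1 i (w - κ i)) Φ = 0) →
      ∀ w ∈ Metric.ball y.1 y.2.1, MvPolynomial.eval (vrD m w (y.2.2.2 w)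
        fun i => y.2.2.1 i (w - κ i)) Φ = 0 := by
    intro x y hxy hx
    induction hxy with
    | refl => exact hx
    | @tail y z _ hyz ih =>
      obtain ⟨-, hz, hne, heq⟩ := hyz
      have hd : DifferentiableOn ℂ (fun w => MvPolynomial.eval (vrD m w (z.2.2.2 w)
          fun i => z.2.2.1 i (w - κ i)) Φ) (Metric.ball z.1 z.2.1) := by
        refine differentiableOn_vrD m (L := z.2.2.2) (Y := fun i w => z.2.2.1 i (w - κ i)) hz.2.2.2
          ?_ Φ
        intro i a b
        exact shift_differentiableOn (f := fun w => z.2.2.1 i w a b) (κ i : ℂ)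
          (solOn_differentiableOn (hz.2.1 i) a b)
      refine eqOn_zero_of_open Metric.isOpen_ball (convex_ball _ _).isPreconnected hd
        (Metric.isOpen_ball.inter Metric.isOpen_ball) hne Set.inter_subset_right ?_
      intro w hw
      rw [← ih w hw.1]
      obtain ⟨h1, h2⟩ := heq w hw
      congr 2
      rw [h2]
      congr 1
      funext i
      exact (h1 i).symm
  have hfin := hstep _ _ hchain (fun w hw => h0 w (hball hw))
  -- the final function is holomorphic on the half plane
  have hG : DifferentiableOn ℂ (fun w => MvPolynomial.eval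
      (vrD m w (Complex.log w + 2 * Real.pi * Complex.I * t.2)
        fun i => Y (w - κ i) * t.1 i) Φ) U := by
    refine differentiableOn_vrD m (L := fun w => Complex.log w + 2 * Real.pi * Complex.I * t.2)
      (Y := fun i w => Y (w - κ i) * t.1 i) (hlog.add (differentiableOn_const _)) ?_ Φ
    intro i a b
    simp only [Matrix.mul_apply]
    refine DifferentiableOn.fun_sum (fun l _ => ?_)
    exact (hYH i a l).mul (differentiableOn_const _)
  have hend := eqOn_zero_of_open hUo hUp hG Metric.isOpen_ball
    ⟨(c : ℂ), Metric.mem_ball_self one_pos⟩ hball (fun w hw => hfin w hw)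
  intro w hw
  exact hend (w : ℂ) (by change R0 < (w : ℂ).re; rwa [Complex.ofReal_re])

end Pool.Agent.MT100D.H46
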